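import Pool.Agent.H242.GX.Stm6
import Pool.Agent.H706.GX.PULL

/-!
GU-PULLP (helper81, project GX of helper242, copy of GX-PULL of helper706): pull back of an exterior foliation to
the normal coordinates, without the hypothesis of evenness.
-/

set_option autoImplicit false

open Set Filter Topology
open scoped ContDiff

namespace Pool.Agent.H81.GU

open Pool.Agent.H242.GX Pool.Agent.H706.GX

theorem gu_PULLP (hBODY : S_BODY) (hPSI : S_PSI) : S_PULLP := by
  intro p X Z hW U Y hF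
  have hp := hW.supp
  obtain ⟨-, -, hfr, hint⟩ := hBODY p hp
  obtain ⟨y₁, hy₁, -, hout, -, -⟩ := hPSI p hp
  have hPs := smooth_Psi hp
  have hgamU : ∀ φ, gam p φ ∈ U := fun φ => hF.frontier_subset (by rw [hfr]; exact mem_range_self φ)
  have hY0 : ∀ φ, Y (gam p φ) = 0 := by
    intro φ
    have h1 : gam p φ ∈ leaf (body p) U Y 0 := by
      rw [hF.leaf_zero, hfr]; exact mem_range_self φ
    exact h1.2.2
  -- a uniform neighbourhood
  obtain ⟨y₂, hy₂, hPU⟩ : ∃ y₂ : ℝ, 0 < y₂ ∧ ∀ φ y : ℝ, |y| < y₂ → Psi p φ y ∈ U := by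
    have hopen : IsOpen ((fun x : ℝ × ℝ => Psi p x.1 x.2) ⁻¹' U) := hF.isOpen.preimage hPs.continuous
    have hsub : (Icc (0 : ℝ) (2 * Real.pi)) ×ˢ ({0} : Set ℝ) ⊆ (fun x : ℝ × ℝ => Psi p x.1 x.2) ⁻¹' U := by
      rintro ⟨a, b⟩ ⟨-, hb⟩
      have hb' : b = 0 := hb
      subst hb'
      show Psi p a 0 ∈ U
      rw [Psi_zero]
      exact hgamU a
    obtain ⟨u, v, -, hv, hu', hv', huv⟩ :=
      generalized_tube_lemma isCompact_Icc isCompact_singleton hopen hsub
    have h0v : (0 : ℝ) ∈ v := hv' (mem_singleton 0)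
    obtain ⟨r, hr, hball⟩ := Metric.isOpen_iff.1 hv 0 h0v
    refine ⟨r, hr, fun φ y hy => ?_⟩
    have hpp : Function.Periodic (fun a => Psi p a y) (2 * Real.pi) := fun a => per_Psi hp a y
    obtain ⟨a, ha, hae⟩ := hpp.exists_mem_Ico₀ Real.two_pi_pos φ
    have hy' : y ∈ v := hball (by rw [Metric.mem_ball, Real.dist_eq, sub_zero]; exact hy)
    have h1 : (a, y) ∈ (fun x : ℝ × ℝ => Psi p x.1 x.2) ⁻¹' U :=
      huv ⟨hu' ⟨ha.1, ha.2.le⟩, hy'⟩
    have h2 : Psi p a y ∈ U := h1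
    have h3 : Psi p φ y = Psi p a y := hae
    rw [h3]
    exact h2
  obtain ⟨b, hb, hb1, hb0⟩ := exists_bump
  set H : ℝ × ℝ → ℝ := fun x => b (x.2 / (y₂ / 2)) * Y (Psi p x.1 x.2) with hH
  have hHeq : ∀ φ y : ℝ, |y| < y₂ / 4 → H (φ, y) = Y (Psi p φ y) := by
    intro φ y hy
    have h1 : |y / (y₂ / 2)| ≤ 1 / 2 := by
      rw [abs_div, abs_of_pos (by positivity : (0 : ℝ) < y₂ / 2), div_le_iff₀ (by positivity)]
      linarith
    show b (y / (y₂ / 2)) * Y (Psi p φ y) = _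
    rw [hb1 _ h1, one_mul]
  have hsm : ContDiff ℝ ∞ H := by
    rw [contDiff_iff_contDiffAt]
    rintro ⟨φ, y⟩
    rcases lt_or_ge (|y|) y₂ with hy | hy
    · have h1 : ContDiffAt ℝ ∞ Y (Psi p φ y) :=
        (hF.smooth _ (hPU φ y hy)).contDiffAt (hF.isOpen.mem_nhds (hPU φ y hy))
      have h2 : ContDiffAt ℝ ∞ (fun x : ℝ × ℝ => Y (Psi p x.1 x.2)) (φ, y) :=
        ContDiffAt.comp (φ, y) (g := Y) (f := fun x : ℝ × ℝ => Psi p x.1 x.2) h1 hPs.contDiffAt
      have h3 : ContDiffAt ℝ ∞ (fun x : ℝ × ℝ => b (x.2 / (y₂ / 2))) (φ, y) :=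
        (hb.comp (contDiff_snd.div_const (y₂ / 2))).contDiffAt
      exact h3.mul h2
    · have h1 : H =ᶠ[𝓝 (φ, y)] fun _ => 0 := by
        have hop : IsOpen {x : ℝ × ℝ | y₂ / 2 < |x.2|} :=
          isOpen_lt continuous_const (continuous_abs.comp continuous_snd)
        have hmem : (φ, y) ∈ {x : ℝ × ℝ | y₂ / 2 < |x.2|} := by
          show y₂ / 2 < |y|
          linarith
        filter_upwards [hop.mem_nhds hmem] with x hx
        have hx' : y₂ / 2 < |x.2| := hx
        have h2 : 1 ≤ |x.2 / (y₂ / 2)| := by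
          rw [abs_div, abs_of_pos (by positivity : (0 : ℝ) < y₂ / 2), le_div_iff₀ (by positivity)]
          linarith
        show b (x.2 / (y₂ / 2)) * Y (Psi p x.1 x.2) = 0
        rw [hb0 _ h2, zero_mul]
      exact contDiffAt_const.congr_of_eventuallyEq h1
  have hH0 : ∀ φ : ℝ, H (φ, 0) = 0 := by
    intro φ
    rw [hHeq φ 0 (by rw [abs_zero]; positivity), Psi_zero, hY0]
  refine ⟨H, y₂ / 4, by positivity, ⟨hsm, fun φ y => ?_, hH0, fun φ => ?_⟩,
    fun φ y hy => ⟨hPU φ y (by linarith), hHeq φ y hy⟩, fun θ => ?_⟩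
  · show b (y / (y₂ / 2)) * Y (Psi p (φ + 2 * Real.pi) y) = b (y / (y₂ / 2)) * Y (Psi p φ y)
    rw [per_Psi hp]
  · -- the normal derivative
    have hdY : DifferentiableAt ℝ Y (gam p φ) :=
      ((hF.smooth _ (hgamU φ)).contDiffAt (hF.isOpen.mem_nhds (hgamU φ))).differentiableAt (by simp)
    have hD := hdY.hasFDerivAt
    have he : fderiv ℝ Y (gam p φ) (e φ) = 0 := by
      have h1 := hD.comp_hasDerivAt φ (hasDerivAt_gam hp φ)
      have h2 : (Y ∘ gam p) = fun _ => (0 : ℝ) := by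
        funext α; exact hY0 α
      rw [h2] at h1
      have h3 := h1.unique (hasDerivAt_const φ (0 : ℝ))
      rw [map_smul, smul_eq_mul] at h3
      have h4 : rho p φ ≠ 0 := (hp.pos φ).ne'
      exact (mul_eq_zero.1 h3).resolve_left h4
    have hnu : fderiv ℝ Y (gam p φ) (nu φ) ≠ 0 := by
      intro h0
      apply hF.regular _ (hgamU φ)
      ext z
      rw [frame φ z, map_add, map_smul, map_smul, he, h0]
      simp
    have hline : HasDerivAt (fun y : ℝ => gam p φ + y • nu φ) (nu φ) 0 := by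
      have h1 : HasDerivAt (fun y : ℝ => y • nu φ) ((1 : ℝ) • nu φ) 0 :=
        (hasDerivAt_id (0 : ℝ)).smul_const (nu φ)
      rw [one_smul] at h1
      exact h1.const_add (gam p φ)
    have hd1 : HasDerivAt (fun y : ℝ => Y (gam p φ + y • nu φ)) (fderiv ℝ Y (gam p φ) (nu φ)) 0 := by
      have hD' : HasFDerivAt Y (fderiv ℝ Y (gam p φ)) (gam p φ + (0 : ℝ) • nu φ) := by
        rw [zero_smul, add_zero]; exact hD
      exact hD'.comp_hasDerivAt (0 : ℝ) hline
    have hd2 : HasDerivAt (fun y : ℝ => H (φ, y)) (fderiv ℝ Y (gam p φ) (nu φ)) 0 := by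
      refine hd1.congr_of_eventuallyEq ?_
      have hop : ∀ᶠ y : ℝ in 𝓝 0, |y| < y₂ / 4 := by
        have := Metric.ball_mem_nhds (0 : ℝ) (by positivity : (0 : ℝ) < y₂ / 4)
        filter_upwards [this] with y hy
        rwa [Metric.mem_ball, Real.dist_eq, sub_zero] at hy
      filter_upwards [hop] with y hy
      exact hHeq φ y hy
    rw [hd2.deriv]
    refine lt_of_le_of_ne ?_ hnu.symm
    -- nonnegativity
    have ht : Tendsto (slope (fun y : ℝ => H (φ, y)) 0) (𝓝[>] 0) (𝓝 (fderiv ℝ Y (gam p φ) (nu φ))) :=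
      (hasDerivAt_iff_tendsto_slope.1 hd2).mono_left
        (nhdsWithin_mono _ (fun y (hy : 0 < y) => hy.ne'))
    refine ge_of_tendsto ht ?_
    have hsmall : ∀ᶠ y : ℝ in 𝓝[>] 0, y < y₂ / 4 :=
      (Filter.Eventually.filter_mono nhdsWithin_le_nhds
        (eventually_lt_nhds (by positivity : (0 : ℝ) < y₂ / 4)))
    filter_upwards [hsmall, self_mem_nhdsWithin] with y hy1 hy2
    have hy2' : 0 < y := hy2
    have habs : |y| < y₂ / 4 := by rwa [abs_of_pos hy2']
    have h5 : 0 ≤ H (φ, y) := by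
      rw [hHeq φ y habs]
      exact hF.nonneg _ (hPU φ y (by linarith)) (fun hin => hout φ y hy2' (interior_subset hin))
    rw [slope_def_field, hH0, sub_zero, sub_zero]
    exact div_nonneg h5 hy2'.le
  · -- the values on the tangent line
    have hcont : Continuous (fun t : ℝ => (X (θ, t)).2 ^ 2) :=
      (continuous_snd.comp (hW.smX.continuous.comp (Continuous.prodMk_right θ))).pow 2
    have hsm2 : ∀ᶠ t : ℝ in 𝓝 0, (X (θ, t)).2 ^ 2 < y₂ / 4 := by
      have h1 := hcont.tendsto 0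
      have h2 : (X (θ, 0)).2 ^ 2 = 0 := by rw [hW.axis]; simp
      rw [h2] at h1
      exact h1.eventually_lt_const (by positivity)
    obtain ⟨r', hr', hball⟩ := Metric.eventually_nhds_iff_ball.1 hsm2
    refine ⟨r', hr', fun s hs => ?_⟩
    have h1 : (X (θ, s)).2 ^ 2 < y₂ / 4 :=
      hball s (by rw [Metric.mem_ball, Real.dist_eq, sub_zero]; exact hs)
    have h3 : Psi p (X (θ, s)).1 ((X (θ, s)).2 ^ 2) = gam p θ + s • e θ := by
      rw [hW.rel]
    have h2 : Psi p (X (θ, s)).1 ((X (θ, s)).2 ^ 2) ∈ U :=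
      hPU _ _ (by rw [abs_of_nonneg (sq_nonneg _)]; linarith)
    refine ⟨h3 ▸ h2, ?_⟩
    rw [hHeq _ _ (by rw [abs_of_nonneg (sq_nonneg _)]; exact h1), h3]

end Pool.Agent.H81.GU
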